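import Mathlib

/-!
Eight squares `[x, x + 14] × [y, y + 14]` in the plane: the arithmetic of their transversals.
-/

set_option autoImplicit false

namespace Pool.Agent.Lib.MP_814928_co

/-- horizontal coordinates of the translation vectors -/
def X : Fin 8 → ℤ := ![0, 1, 2, 5, 8, 16, 17, 20]
/-- vertical coordinates of the translation vectors -/
def Y : Fin 8 → ℤ := ![51, 32, 17, 0, 69, 43, 28, 12]

theorem disj_int : ∀ i j : Fin 8, i ≠ j →
    ¬ ((X i ≤ X j + 14 ∧ X j ≤ X i + 14) ∧ (Y i ≤ Y j + 14 ∧ Y j ≤ Y i + 14)) := by decide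

/-- coefficients of twelve lines `a x + b y = c` -/
def la : Fin 12 → ℤ := ![1, 1, 2, 10, 19, 2, 2, 22, 2, 2, 4, 6]
/-- coefficients of twelve lines `a x + b y = c` -/
def lb : Fin 12 → ℤ := ![0, 1, -1, 1, 4, -1, -1, -1, 1, 1, 1, -1]
/-- coefficients of twelve lines `a x + b y = c` -/
def lc : Fin 12 → ℤ := ![8, 59, 14, 203, 428, -25, -4, 415, 52, 62, 101, 63]

/-- the line `l` meets the square `i`, as an inequality between integers -/
def hit (l : Fin 12) (i : Fin 8) : Prop :=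
  la l * X i + lb l * Y i + min 0 (14 * la l) + min 0 (14 * lb l) ≤ lc l ∧
    lc l ≤ la l * X i + lb l * Y i + max 0 (14 * la l) + max 0 (14 * lb l)

instance : DecidableRel hit := fun l i => by unfold hit; infer_instance

theorem three_hit : ∀ i j k : Fin 8, ∃ l : Fin 12, hit l i ∧ hit l j ∧ hit l k := by decide

theorem l_ne : ∀ l, la l ≠ 0 ∨ lb l ≠ 0 := by decide

/-- a line with `hit` really meets the square -/
theorem exists_of_hit (a b c x y : ℝ)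
    (h1 : a * x + b * y + min 0 (14 * a) + min 0 (14 * b) ≤ c)
    (h2 : c ≤ a * x + b * y + max 0 (14 * a) + max 0 (14 * b)) :
    ∃ z w : ℝ, (x ≤ z ∧ z ≤ x + 14) ∧ (y ≤ w ∧ w ≤ y + 14) ∧ a * z + b * w = c := by
  -- the corners where `a z + b w` is smallest and largest
  obtain ⟨x1, x2, hx1, hx2, hx3⟩ : ∃ x1 x2 : ℝ, (x ≤ x1 ∧ x1 ≤ x + 14) ∧
      (x ≤ x2 ∧ x2 ≤ x + 14) ∧ (a * x1 = a * x + min 0 (14 * a) ∧
      a * x2 = a * x + max 0 (14 * a)) := by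
    rcases le_total 0 a with h | h
    · refine ⟨x, x + 14, ⟨le_refl _, by linarith⟩, ⟨by linarith, le_refl _⟩, ?_, ?_⟩
      · rw [min_eq_left (by linarith)]; ring
      · rw [max_eq_right (by linarith)]; ring
    · refine ⟨x + 14, x, ⟨by linarith, le_refl _⟩, ⟨le_refl _, by linarith⟩, ?_, ?_⟩
      · rw [min_eq_right (by linarith)]; ring
      · rw [max_eq_left (by linarith)]; ring
  obtain ⟨y1, y2, hy1, hy2, hy3⟩ : ∃ y1 y2 : ℝ, (y ≤ y1 ∧ y1 ≤ y + 14) ∧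
      (y ≤ y2 ∧ y2 ≤ y + 14) ∧ (b * y1 = b * y + min 0 (14 * b) ∧
      b * y2 = b * y + max 0 (14 * b)) := by
    rcases le_total 0 b with h | h
    · refine ⟨y, y + 14, ⟨le_refl _, by linarith⟩, ⟨by linarith, le_refl _⟩, ?_, ?_⟩
      · rw [min_eq_left (by linarith)]; ring
      · rw [max_eq_right (by linarith)]; ring
    · refine ⟨y + 14, y, ⟨by linarith, le_refl _⟩, ⟨le_refl _, by linarith⟩, ?_, ?_⟩
      · rw [min_eq_right (by linarith)]; ring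
      · rw [max_eq_left (by linarith)]; ring
  have hlo : a * x1 + b * y1 ≤ c := by linarith [hx3.1, hy3.1]
  have hhi : c ≤ a * x2 + b * y2 := by linarith [hx3.2, hy3.2]
  -- intermediate value along the segment
  obtain ⟨t, ht0, ht1, ht⟩ : ∃ t : ℝ, 0 ≤ t ∧ t ≤ 1 ∧
      (a * x1 + b * y1) + t * ((a * x2 + b * y2) - (a * x1 + b * y1)) = c := by
    rcases eq_or_lt_of_le (hlo.trans hhi) with h | h
    · exact ⟨0, le_refl _, zero_le_one, by linarith⟩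
    · refine ⟨(c - (a * x1 + b * y1)) / ((a * x2 + b * y2) - (a * x1 + b * y1)), ?_, ?_, ?_⟩
      · apply div_nonneg <;> linarith
      · rw [div_le_one (by linarith)]; linarith
      · rw [div_mul_cancel₀ _ (by linarith)]; ring
  refine ⟨x1 + t * (x2 - x1), y1 + t * (y2 - y1), ⟨?_, ?_⟩, ⟨?_, ?_⟩, ?_⟩
  · nlinarith [hx1.1, hx2.1]
  · nlinarith [hx1.2, hx2.2]
  · nlinarith [hy1.1, hy2.1]
  · nlinarith [hy1.2, hy2.2]
  · linarith

/-! ### No line meets six of the squares -/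

/-- certificates for lines whose normal vector has coordinates of the same sign -/
def certP : Fin 5 → Fin 8 × Fin 8 × Fin 8 × Fin 8 × ℕ × ℕ :=
  ![(4, 1, 5, 1, 2, 15), (4, 2, 6, 2, 1, 9), (4, 3, 7, 3, 1, 12), (5, 0, 5, 2, 1, 2),
    (6, 3, 7, 3, 1, 3)]

/-- certificates for lines whose normal vector has coordinates of opposite signs -/
def certM : Fin 4 → Fin 8 × Fin 8 × Fin 8 × Fin 8 × ℕ × ℕ :=
  ![(7, 1, 7, 1, 1, 1), (3, 0, 5, 0, 1, 5), (6, 1, 6, 4, 8, 3), (7, 2, 7, 4, 1, 1)]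

/-- validity of a certificate, with `e = 1` or `e = -1` -/
def valid (e : ℤ) (c : Fin 8 × Fin 8 × Fin 8 × Fin 8 × ℕ × ℕ) : Prop :=
  0 < (c.2.2.2.2.1 : ℤ) * (X c.1 - X c.2.1 - 14) +
      (c.2.2.2.2.2 : ℤ) * (X c.2.2.1 - X c.2.2.2.1 - 14) ∧
  0 < (c.2.2.2.2.1 : ℤ) * (e * (Y c.1 - Y c.2.1) - 14) +
      (c.2.2.2.2.2 : ℤ) * (e * (Y c.2.2.1 - Y c.2.2.2.1) - 14)

instance (e : ℤ) (c : Fin 8 × Fin 8 × Fin 8 × Fin 8 × ℕ × ℕ) : Decidable (valid e c) := by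
  unfold valid; infer_instance

theorem certP_valid : ∀ m, valid 1 (certP m) := by decide
theorem certM_valid : ∀ m, valid (-1) (certM m) := by decide

theorem certP_avoid : ∀ I : Finset (Fin 8), I.card ≤ 2 → ∃ m, (certP m).1 ∉ I ∧
    (certP m).2.1 ∉ I ∧ (certP m).2.2.1 ∉ I ∧ (certP m).2.2.2.1 ∉ I := by decide +kernel
theorem certM_avoid : ∀ I : Finset (Fin 8), I.card ≤ 2 → ∃ m, (certM m).1 ∉ I ∧
    (certM m).2.1 ∉ I ∧ (certM m).2.2.1 ∉ I ∧ (certM m).2.2.2.1 ∉ I := by decide +kernel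

/-- A certificate excludes a line. The line is `w₁ z₀ + e w₂ z₁ = c` with `w₁, w₂ ≥ 0`. -/
theorem no_line (e : ℤ) (he : e = 1 ∨ e = -1) (C : Fin 8 × Fin 8 × Fin 8 × Fin 8 × ℕ × ℕ)
    (hC : valid e C) (w1 w2 c : ℝ) (hw1 : 0 ≤ w1) (hw2 : 0 ≤ w2) (hw : w1 ≠ 0 ∨ w2 ≠ 0)
    (hit : ∀ i, i = C.1 ∨ i = C.2.1 ∨ i = C.2.2.1 ∨ i = C.2.2.2.1 →
      ∃ z0 z1 : ℝ, ((X i : ℝ) ≤ z0 ∧ z0 ≤ X i + 14) ∧ ((Y i : ℝ) ≤ z1 ∧ z1 ≤ Y i + 14) ∧
        w1 * z0 + e * w2 * z1 = c) : False := by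
  obtain ⟨i, j, k, l, lam, mu⟩ := C
  obtain ⟨v1, v2⟩ := hC
  simp only at v1 v2 hit
  -- difference bound for two squares that are hit
  have key : ∀ a b : Fin 8, (∃ z0 z1 : ℝ, ((X a : ℝ) ≤ z0 ∧ z0 ≤ X a + 14) ∧
        ((Y a : ℝ) ≤ z1 ∧ z1 ≤ Y a + 14) ∧ w1 * z0 + e * w2 * z1 = c) →
      (∃ z0 z1 : ℝ, ((X b : ℝ) ≤ z0 ∧ z0 ≤ X b + 14) ∧
        ((Y b : ℝ) ≤ z1 ∧ z1 ≤ Y b + 14) ∧ w1 * z0 + e * w2 * z1 = c) →
      w1 * ((X a : ℝ) - X b - 14) + w2 * ((e : ℝ) * (Y a - Y b) - 14) ≤ 0 := by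
    rintro a b ⟨z0, z1, ⟨p1, p2⟩, ⟨p3, p4⟩, p5⟩ ⟨y0, y1, ⟨q1, q2⟩, ⟨q3, q4⟩, q5⟩
    have m1 := mul_le_mul_of_nonneg_left p1 hw1
    have m2 := mul_le_mul_of_nonneg_left q2 hw1
    have m3 := mul_le_mul_of_nonneg_left p3 hw2
    have m4 := mul_le_mul_of_nonneg_left p4 hw2
    have m5 := mul_le_mul_of_nonneg_left q3 hw2
    have m6 := mul_le_mul_of_nonneg_left q4 hw2
    rcases he with rfl | rfl
    · push_cast at p5 q5 ⊢
      linarith
    · push_cast at p5 q5 ⊢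
      linarith
  have k1 := key i j (hit i (Or.inl rfl)) (hit j (Or.inr (Or.inl rfl)))
  have k2 := key k l (hit k (Or.inr (Or.inr (Or.inl rfl)))) (hit l (Or.inr (Or.inr (Or.inr rfl))))
  have hlam : (0 : ℝ) ≤ lam := Nat.cast_nonneg _
  have hmu : (0 : ℝ) ≤ mu := Nat.cast_nonneg _
  have s1 := mul_le_mul_of_nonneg_left k1 hlam
  have s2 := mul_le_mul_of_nonneg_left k2 hmu
  have v1' : (0 : ℝ) < (lam : ℝ) * ((X i : ℝ) - X j - 14) + mu * ((X k : ℝ) - X l - 14) := by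
    exact_mod_cast v1
  have v2' : (0 : ℝ) < (lam : ℝ) * ((e : ℝ) * (Y i - Y j) - 14) +
      mu * ((e : ℝ) * (Y k - Y l) - 14) := by
    exact_mod_cast v2
  have hsum : w1 * ((lam : ℝ) * ((X i : ℝ) - X j - 14) + mu * ((X k : ℝ) - X l - 14)) +
      w2 * ((lam : ℝ) * ((e : ℝ) * (Y i - Y j) - 14) + mu * ((e : ℝ) * (Y k - Y l) - 14)) ≤ 0 := by
    linarith
  rcases hw with h | h
  · have hpos : 0 < w1 := lt_of_le_of_ne hw1 (Ne.symm h)
    have a1 := mul_pos hpos v1'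
    have a2 := mul_nonneg hw2 v2'.le
    linarith
  · have hpos : 0 < w2 := lt_of_le_of_ne hw2 (Ne.symm h)
    have a1 := mul_pos hpos v2'
    have a2 := mul_nonneg hw1 v1'.le
    linarith

/-- No line `u₁ z₀ + u₂ z₁ = c` meets all squares outside a set of at most two indices. -/
theorem no_line_all (u1 u2 c : ℝ) (hu : u1 ≠ 0 ∨ u2 ≠ 0) (I : Finset (Fin 8)) (hI : I.card ≤ 2)
    (hit : ∀ i, i ∉ I →
      ∃ z0 z1 : ℝ, ((X i : ℝ) ≤ z0 ∧ z0 ≤ X i + 14) ∧ ((Y i : ℝ) ≤ z1 ∧ z1 ≤ Y i + 14) ∧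
        u1 * z0 + u2 * z1 = c) : False := by
  -- reduce to `0 ≤ u1`
  wlog h1 : 0 ≤ u1 generalizing u1 u2 c with H
  · refine H (-u1) (-u2) (-c) ?_ ?_ ?_
    · rcases hu with h | h
      · left; simpa using h
      · right; simpa using h
    · intro i hi
      obtain ⟨z0, z1, hz0, hz1, hz⟩ := hit i hi
      exact ⟨z0, z1, hz0, hz1, by rw [← hz]; ring⟩
    · linarith
  rcases le_total 0 u2 with h2 | h2
  · obtain ⟨m, m1, m2, m3, m4⟩ := certP_avoid I hI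
    refine no_line 1 (Or.inl rfl) (certP m) (certP_valid m) u1 u2 c h1 h2 hu ?_
    rintro i (rfl | rfl | rfl | rfl)
    · simpa using hit _ m1
    · simpa using hit _ m2
    · simpa using hit _ m3
    · simpa using hit _ m4
  · obtain ⟨m, m1, m2, m3, m4⟩ := certM_avoid I hI
    refine no_line (-1) (Or.inr rfl) (certM m) (certM_valid m) u1 (-u2) c h1 (by linarith)
      (by rcases hu with h | h
          · left; exact h
          · right; simpa using h) ?_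
    rintro i (rfl | rfl | rfl | rfl)
    · simpa using hit _ m1
    · simpa using hit _ m2
    · simpa using hit _ m3
    · simpa using hit _ m4

end Pool.Agent.Lib.MP_814928_co
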